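import Pool.Agent.H52.V.S8.H38R2.CG3.Link
import Pool.Agent.H52.V.S8.H38R2.CG3.Par
import Pool.Agent.H52.V.S8.H38R2.CG2.AS1
import Pool.Agent.H52.V.S8.H38R2.CG2.AP
import Pool.Agent.H52.V.S8.H38R2.CG2.PF

/-!
# Final assembly: class distribution for almost all discriminants and almost all primes
-/

set_option autoImplicit false

namespace Pool.Agent.H38R2.CG3

open Finset Filter NumberField Pool.Agent.H38R2.CG Pool.Agent.H38R2.CG2 Pool.Agent.H38R2.CG.AS1h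
open Pool.Agent.H38R2.CG.FINh
open scoped Classical

/-- few exceptional discriminants in a short interval -/
theorem short_all (ht : P2_TRIV) (h : P3_AS0) (a : ℝ) (ha : 2 < a) (t0 : ℝ) (ht0 : 0 < t0)
    (ε : ℝ) (hε : 0 < ε) : ∃ η : ℝ, 0 < η ∧ η ≤ 1 ∧ ∃ X0 : ℕ, ∀ X ≥ X0,
    (((Finset.Ioc X ⌊(1 + η) * X⌋₊).filter (fun D => IsFund D ∧ Bd a t0 X D)).card : ℝ) ≤
      ε * η * X := by
  obtain ⟨z0, hz0⟩ := h a ha t0 ht0 1 le_rfl ε hε
  obtain ⟨η1, hη1, H⟩ := hz0 z0 le_rfl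
  have hηpos : 0 < min η1 1 := lt_min hη1 one_pos
  refine ⟨min η1 1, hηpos, min_le_right _ _, ?_⟩
  have H' : ∀ r : ℕ, ∃ X0 : ℕ, ∀ X ≥ X0, FundRes z0 r → ∀ ρ : ℕ → ℝ,
      SWt z0 X (PA a X) (cc a) 1 ρ →
      ∑ D ∈ (FD z0 r X (min η1 1)).filter (fun D => Bd a t0 X D), wt ρ D ≤
        ε * WW z0 X (min η1 1) ρ := by
    intro r
    by_cases hr : FundRes z0 r
    · obtain ⟨X0, hX0⟩ := H (min η1 1) hηpos (min_le_left _ _) r hr
      exact ⟨X0, fun X hX _ => hX0 X hX⟩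
    · exact ⟨0, fun X _ hr' => absurd hr' hr⟩
  choose X0 hX0 using H'
  refine ⟨max 3 ((Finset.range (Qz z0)).sup X0), ?_⟩
  intro X hX
  have hX3 : 3 ≤ X := le_trans (le_max_left _ _) hX
  have hXs : (Finset.range (Qz z0)).sup X0 ≤ X := le_trans (le_max_right _ _) hX
  have hcc : 0 < cc a := by
    unfold cc
    apply div_pos <;> linarith
  obtain ⟨hSW, hGG, hwt⟩ := ht z0 X (PA a X) (cc a) 1 hX3 hcc le_rfl
    (fun p hp => (Finset.mem_filter.1 hp).2)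
  set η := min η1 1 with hη
  set ρ : ℕ → ℝ := fun d => if d = 1 then 1 else 0 with hρ
  have hWW : WW z0 X η ρ = η * X / Qz z0 := by
    unfold WW
    rw [hGG, mul_one]
  set S := (Finset.Ioc X ⌊(1 + η) * X⌋₊).filter (fun D => IsFund D ∧ Bd a t0 X D) with hS
  have hcard : S.card = ∑ r ∈ Finset.range (Qz z0), (S.filter (fun D => D % Qz z0 = r)).card := by
    apply Finset.card_eq_sum_card_fiberwise
    intro D _
    simp only [Finset.coe_range, Set.mem_Iio]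
    exact Nat.mod_lt _ (Qz_pos z0)
  have hQ : (0 : ℝ) < Qz z0 := by exact_mod_cast Qz_pos z0
  have hnn : 0 ≤ ε * (η * X / Qz z0) := by positivity
  have hle : ∀ r ∈ Finset.range (Qz z0),
      ((S.filter (fun D => D % Qz z0 = r)).card : ℝ) ≤ ε * (η * X / Qz z0) := by
    intro r hr
    by_cases hfr : FundRes z0 r
    · have h1 := hX0 r X (le_trans (Finset.le_sup hr) hXs) hfr ρ hSW
      rw [hWW] at h1
      refine le_trans ?_ h1
      have hcardsum : ∑ D ∈ (FD z0 r X η).filter (fun D => Bd a t0 X D), wt ρ D =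
          (((FD z0 r X η).filter (fun D => Bd a t0 X D)).card : ℝ) := by
        rw [Finset.card_eq_sum_ones]
        push_cast
        apply Finset.sum_congr rfl
        intro D hD
        apply hwt
        have h2 := (Finset.mem_filter.1 (Finset.mem_filter.1 hD).1).2
        exact h2.1.le
      rw [hcardsum]
      have : (S.filter (fun D => D % Qz z0 = r)) ⊆
          ((FD z0 r X η).filter (fun D => Bd a t0 X D)) := by
        intro D hD
        simp only [hS, FD, DD, Finset.mem_filter] at hD ⊢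
        exact ⟨⟨⟨hD.1.1, hD.2⟩, hD.1.2.1⟩, hD.1.2.2⟩
      exact_mod_cast Finset.card_le_card this
    · have : (S.filter (fun D => D % Qz z0 = r)) = ∅ := by
        rw [Finset.filter_eq_empty_iff]
        intro D hD hDr
        apply hfr
        rw [← hDr]
        exact fundRes z0 D (Finset.mem_filter.1 hD).2.1
      rw [this]
      simpa using hnn
  rw [hcard]
  push_cast
  refine le_trans (Finset.sum_le_sum hle) ?_
  rw [Finset.sum_const, Finset.card_range, nsmul_eq_mul]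
  have : (Qz z0 : ℝ) * (ε * (η * X / Qz z0)) = ε * η * X := by
    field_simp
  rw [this]


open APh in
/-- few exceptional prime discriminants in a short interval -/
theorem short_primes (hAS : P3_AS0) (hBH : P2_BH) (hRC : P2_RC) (a : ℝ) (ha : 2 < a) (t0 : ℝ)
    (ht0 : 0 < t0) (ε : ℝ) (hε : 0 < ε) : ∃ η : ℝ, 0 < η ∧ η ≤ 1 ∧ ∃ X0 : ℕ, ∀ X ≥ X0,
    (((Finset.Ioc X ⌊(1 + η) * X⌋₊).filter (fun D => (∃ p : ℕ, p.Prime ∧ (D = p ∨ D = 4 * p)) ∧
      IsFund D ∧ Bd a t0 X D)).card : ℝ) ≤ ε * η * X / Real.log X := by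
  have ha1 : 0 < a - 1 := by linarith
  have hcc0 : 0 < cc a := by
    unfold cc
    exact div_pos (by linarith) (by linarith)
  have hcc1 : cc a ≤ 1 / 2 := by
    unfold cc
    rw [div_le_iff₀ (by linarith)]
    linarith
  obtain ⟨C0, hC0, hB⟩ := hBH (cc a) hcc0 (by linarith)
  have hC0' : (1 : ℝ) ≤ C0 := by exact_mod_cast hC0
  obtain ⟨z0, hz0⟩ := hAS a ha t0 ht0 C0 hC0 (ε / C0) (by positivity)
  set z := max 2 z0 with hz
  have hz2 : 2 ≤ z := le_max_left _ _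
  obtain ⟨η1, hη1, H⟩ := hz0 z (le_max_right _ _)
  obtain ⟨XB, hXB⟩ := hB z hz2 a ha
  have hηpos : 0 < min η1 1 := lt_min hη1 one_pos
  refine ⟨min η1 1, hηpos, min_le_right _ _, ?_⟩
  set η := min η1 1 with hη
  have H' : ∀ r : ℕ, ∃ X0 : ℕ, ∀ X ≥ X0, ∀ ρ : ℕ → ℝ, SWt z X (PA a X) (cc a) C0 ρ →
      FundRes z r →
      ∑ D ∈ (FD z r X η).filter (fun D => Bd a t0 X D), wt ρ D ≤ ε / C0 * WW z X η ρ := by
    intro r
    by_cases hr : FundRes z r
    · obtain ⟨X0, hX0⟩ := H η hηpos (min_le_left _ _) r hr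
      exact ⟨X0, fun X hX ρ hρ _ => hX0 X hX ρ hρ⟩
    · exact ⟨0, fun X _ ρ _ hr' => absurd hr' hr⟩
  choose X0 hX0 using H'
  refine ⟨max (max ((Finset.range (Qz z)).sup X0) XB) (max 17 (4 * z)), ?_⟩
  intro X hX
  have hX1 : (Finset.range (Qz z)).sup X0 ≤ X :=
    (le_max_left _ _).trans ((le_max_left _ _).trans hX)
  have hX2 : XB ≤ X := (le_max_right _ _).trans ((le_max_left _ _).trans hX)
  have hX3 : 17 ≤ X := (le_max_left _ _).trans ((le_max_right _ _).trans hX)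
  have hX4 : 4 * z ≤ X := (le_max_right _ _).trans ((le_max_right _ _).trans hX)
  obtain ⟨ρ, hρ, hρ1, hGG⟩ := hXB X hX2
  have hX17 : (17 : ℝ) ≤ X := by exact_mod_cast hX3
  have hlog : 0 < Real.log X := Real.log_pos (by linarith)
  have hGpos : 0 ≤ GG X ρ := le_trans (by positivity) hρ.low
  set S := (Finset.Ioc X ⌊(1 + η) * X⌋₊).filter (fun D =>
    (∃ p : ℕ, p.Prime ∧ (D = p ∨ D = 4 * p)) ∧ IsFund D ∧ Bd a t0 X D) with hS
  have hcard : S.card = ∑ r ∈ Finset.range (Qz z), (S.filter (fun D => D % Qz z = r)).card := by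
    apply Finset.card_eq_sum_card_fiberwise
    intro D _
    simp only [Finset.coe_range, Set.mem_Iio]
    exact Nat.mod_lt _ (AS1h.Qz_pos z)
  have hQ : (0 : ℝ) < Qz z := by exact_mod_cast AS1h.Qz_pos z
  have hW : 0 ≤ ε / C0 * WW z X η ρ := by
    unfold WW
    positivity
  have hle : ∀ r ∈ Finset.range (Qz z),
      ((S.filter (fun D => D % Qz z = r)).card : ℝ) ≤
        if (∀ q ∈ (Finset.Icc 3 z).filter Nat.Prime, ¬ q ∣ r) then ε / C0 * WW z X η ρ else 0 := by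
    intro r hr
    by_cases hfr : FundRes z r ∧ ∀ q ∈ (Finset.Icc 3 z).filter Nat.Prime, ¬ q ∣ r
    · rw [if_pos hfr.2]
      refine le_trans ?_ (hX0 r X (le_trans (Finset.le_sup hr) hX1) ρ hρ hfr.1)
      have hsub : (S.filter (fun D => D % Qz z = r)) ⊆
          ((FD z r X η).filter (fun D => Bd a t0 X D)) := by
        intro D hD
        simp only [hS, FD, DD, Finset.mem_filter] at hD ⊢
        exact ⟨⟨⟨hD.1.1, hD.2⟩, hD.1.2.2.1⟩, hD.1.2.2.2⟩
      have e1 : ((S.filter (fun D => D % Qz z = r)).card : ℝ) =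
          ∑ D ∈ S.filter (fun D => D % Qz z = r), wt ρ D := by
        rw [Finset.sum_congr rfl (g := fun _ => (1 : ℝ)), Finset.sum_const, nsmul_eq_mul, mul_one]
        intro D hD
        simp only [hS, Finset.mem_filter, Finset.mem_Ioc] at hD
        obtain ⟨p, hp, hDp⟩ := hD.1.2.1
        exact wt_one hX3 hcc1 hρ hρ1 hD.1.1.1 hp hDp
      rw [e1]
      refine Finset.sum_le_sum_of_subset_of_nonneg hsub ?_
      intro D hD _
      simp only [FD, DD, Finset.mem_filter, Finset.mem_Ioc] at hD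
      exact wt_nonneg (by omega) (by linarith) hρ D (by omega)
    · have hemp : (S.filter (fun D => D % Qz z = r)) = ∅ := by
        rw [Finset.filter_eq_empty_iff]
        intro D hD hDr
        apply hfr
        simp only [hS, Finset.mem_filter, Finset.mem_Ioc] at hD
        obtain ⟨p, hp, hDp⟩ := hD.2.1
        rw [← hDr]
        exact ⟨AS1h.fundRes z D hD.2.2.1, res_cop hD.1.1 hp hDp hX4⟩
      rw [hemp, Finset.card_empty, Nat.cast_zero]
      split_ifs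
      · exact hW
      · exact le_rfl
  rw [hcard]
  push_cast
  refine le_trans (Finset.sum_le_sum hle) ?_
  rw [← Finset.sum_filter, Finset.sum_const, nsmul_eq_mul]
  have hRC' : ∀ inst : DecidablePred fun r : ℕ =>
      ∀ q ∈ (Finset.Icc 3 z).filter Nat.Prime, ¬ q ∣ r,
      (((@Finset.filter ℕ (fun r : ℕ => ∀ q ∈ (Finset.Icc 3 z).filter Nat.Prime, ¬ q ∣ r) inst
        (Finset.range (Qz z))).card : ℕ) : ℝ) =
      Qz z * ∏ q ∈ (Finset.Icc 3 z).filter Nat.Prime, (1 - (1 : ℝ) / q) := by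
    intro inst
    have h5 := hRC z
    convert h5
  refine (le_of_eq (congrArg (fun t : ℝ => t * (ε / C0 * WW z X η ρ)) (hRC' _))).trans ?_
  show (Qz z : ℝ) * (∏ q ∈ (Finset.Icc 3 z).filter Nat.Prime, (1 - (1 : ℝ) / q)) *
    (ε / C0 * WW z X η ρ) ≤ ε * η * X / Real.log X
  unfold WW
  have e2 : (Qz z : ℝ) * (∏ q ∈ (Finset.Icc 3 z).filter Nat.Prime, (1 - (1 : ℝ) / q)) *
      (ε / C0 * (η * X / Qz z * GG X ρ)) = ε / C0 * (η * X) *
        (GG X ρ * ∏ q ∈ (Finset.Icc 3 z).filter Nat.Prime, (1 - (1 : ℝ) / q)) := by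
    field_simp
  rw [e2]
  calc ε / C0 * (η * X) *
        (GG X ρ * ∏ q ∈ (Finset.Icc 3 z).filter Nat.Prime, (1 - (1 : ℝ) / q))
      ≤ ε / C0 * (η * X) * (C0 / Real.log X) :=
        mul_le_mul_of_nonneg_left hGG (by positivity)
    _ = ε * η * X / Real.log X := by
        field_simp



/-- counting function -/
noncomputable def NR (R : ℕ → Prop) (Z : ℕ) : ℕ := ((Finset.Ioc 0 Z).filter R).card

lemma NR_le (R : ℕ → Prop) (Z : ℕ) : NR R Z ≤ Z := by
  unfold NR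
  refine le_trans (Finset.card_filter_le _ _) ?_
  simp

lemma NR_mono (R : ℕ → Prop) (Z Z' : ℕ) (h : Z ≤ Z') : NR R Z ≤ NR R Z' := by
  unfold NR
  apply Finset.card_le_card
  apply Finset.filter_subset_filter
  exact Finset.Ioc_subset_Ioc_right h

lemma NR_add (R : ℕ → Prop) {X Z : ℕ} (h : X ≤ Z) :
    NR R Z ≤ NR R X + ((Finset.Ioc X Z).filter R).card := by
  unfold NR
  rw [← Finset.Ioc_union_Ioc_eq_Ioc (Nat.zero_le X) h, Finset.filter_union]
  exact Finset.card_union_le _ _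

lemma le_Dof (d : ℕ) : d ≤ Dof d := by
  unfold Dof
  split_ifs <;> omega

/-- all squarefree integers -/
theorem fin_all (Exc : ℕ → Prop)
    (hs : ∀ ε : ℝ, 0 < ε → ∃ η : ℝ, 0 < η ∧ η ≤ 1 ∧ ∃ X0 : ℕ, ∀ X ≥ X0,
      (((Finset.Ioc X ⌊(1 + η) * X⌋₊).filter
        (fun D => ∃ d : ℕ, 1 < d ∧ Squarefree d ∧ Exc d ∧ D = Dof d)).card : ℝ) ≤ ε * η * X) :
    Tendsto (fun X : ℕ =>
      (((Finset.Icc 2 X).filter (fun d => Squarefree d ∧ Exc d)).card : ℝ) / X)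
      atTop (nhds 0) := by
  rw [Metric.tendsto_atTop]
  intro ε hε
  obtain ⟨η, hη, hη1, X0, hX0⟩ := hs (ε / 16) (by positivity)
  set R : ℕ → Prop := fun D => ∃ d : ℕ, 1 < d ∧ Squarefree d ∧ Exc d ∧ D = Dof d with hR
  have hstep : ∀ X : ℕ, (X0 : ℝ) ≤ X →
      (NR R ⌊(1 + η) * X⌋₊ : ℝ) ≤ NR R X + ε / 16 * η * X := by
    intro X hX
    have hle : X ≤ ⌊(1 + η) * (X : ℝ)⌋₊ := by
      apply Nat.le_floor
      have : (0 : ℝ) ≤ X := by positivity
      nlinarith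
    have h2 := NR_add R hle
    have h3 := hX0 X (by exact_mod_cast hX)
    have h2' : (NR R ⌊(1 + η) * (X : ℝ)⌋₊ : ℝ) ≤
        NR R X + (((Finset.Ioc X ⌊(1 + η) * (X : ℝ)⌋₊).filter R).card : ℝ) := by
      exact_mod_cast h2
    linarith
  set C : ℝ := 6 / η + 2 * (X0 : ℝ) + 2 with hC
  have hC0 : 0 ≤ C := by positivity
  have hb0 : ∀ Z : ℕ, (NR R Z : ℝ) ≤ 2 * (ε / 16) * Z + C := fun Z =>
    PFh.iter (NR R) (NR_le R) (NR_mono R) η (ε / 16) X0 hη hη1 (by positivity) (by positivity)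
      hstep Z
  refine ⟨⌈2 * C / ε⌉₊ + 1, ?_⟩
  intro Y hY
  have hYr : 2 * C / ε < (Y : ℝ) := by
    have h1 : 2 * C / ε ≤ ⌈2 * C / ε⌉₊ := Nat.le_ceil _
    have h2 : ((⌈2 * C / ε⌉₊ + 1 : ℕ) : ℝ) ≤ Y := by exact_mod_cast hY
    push_cast at h2
    linarith
  have hY0 : (0 : ℝ) < Y := lt_of_le_of_lt (by positivity) hYr
  rw [div_lt_iff₀ hε] at hYr
  have hb := hb0 (4 * Y)
  have hcn : ((Finset.Icc 2 Y).filter (fun d => Squarefree d ∧ Exc d)).card ≤ NR R (4 * Y) := by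
    unfold NR
    refine Finset.card_le_card_of_injOn Dof ?_ ?_
    · intro d hd
      rw [Finset.mem_coe, Finset.mem_filter, Finset.mem_Icc] at hd
      rw [Finset.mem_coe, Finset.mem_filter, Finset.mem_Ioc]
      have h1 : 1 < d := by omega
      refine ⟨⟨?_, ?_⟩, d, h1, hd.2.1, hd.2.2, rfl⟩
      · have := (isFund_Dof h1 hd.2.1).1
        omega
      · refine (Dof_le d).trans ?_
        omega
    · intro d _ d' _ h
      exact Dof_inj h
  have hc : (((Finset.Icc 2 Y).filter (fun d => Squarefree d ∧ Exc d)).card : ℝ) ≤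
      NR R (4 * Y) := by exact_mod_cast hcn
  rw [Real.dist_eq, sub_zero, abs_of_nonneg (by positivity), div_lt_iff₀ hY0]
  push_cast at hb
  nlinarith

/-- all primes -/
theorem fin_primes (hNB : P_NB) (Exc : ℕ → Prop)
    (hs : ∀ ε : ℝ, 0 < ε → ∃ η : ℝ, 0 < η ∧ η ≤ 1 ∧ ∃ X0 : ℕ, ∀ X ≥ X0,
      (((Finset.Ioc X ⌊(1 + η) * X⌋₊).filter
        (fun D => ∃ p : ℕ, p.Prime ∧ Exc p ∧ D = Dof p)).card : ℝ) ≤ ε * η * X / Real.log X) :
    Tendsto (fun X : ℕ =>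
      (((Finset.Icc 2 X).filter (fun p => p.Prime ∧ Exc p)).card : ℝ) /
        (((Finset.Icc 2 X).filter Nat.Prime).card : ℝ))
      atTop (nhds 0) := by
  rw [Metric.tendsto_atTop]
  intro ε hε
  set R : ℕ → Prop := fun D => ∃ p : ℕ, p.Prime ∧ Exc p ∧ D = Dof p with hR
  obtain ⟨C, hC0, hC⟩ : ∃ C : ℝ, 0 ≤ C ∧ ∀ Z : ℕ, 2 ≤ Z →
      (NR R Z : ℝ) ≤ 4 * (ε / 200) * Z / Real.log Z + C + 2 * √(Z : ℝ) := by
    obtain ⟨η, hη, hη1, X0, hX0⟩ := hs (ε / 200) (by positivity)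
    refine ⟨6 / η + 2 * (X0 : ℝ) + 2, by positivity, fun Z hZ => ?_⟩
    have hZ2 : (2 : ℝ) ≤ Z := by exact_mod_cast hZ
    have hlZ : 0 < Real.log Z := Real.log_pos (by linarith)
    have hsZ : 0 ≤ √(Z : ℝ) := Real.sqrt_nonneg _
    have hstep : ∀ X : ℕ, (X0 : ℝ) + √(Z : ℝ) ≤ X →
        (NR R ⌊(1 + η) * X⌋₊ : ℝ) ≤ NR R X + 2 * (ε / 200) / Real.log Z * η * X := by
      intro X hX
      have hXX0 : X0 ≤ X := by
        have : (X0 : ℝ) ≤ X := by linarith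
        exact_mod_cast this
      have hXZ : √(Z : ℝ) ≤ X := by
        have e2 : (0 : ℝ) ≤ X0 := by positivity
        linarith
      have hlog : Real.log Z / 2 ≤ Real.log X := by
        have e1 := Real.log_le_log (Real.sqrt_pos.2 (by linarith : (0 : ℝ) < Z)) hXZ
        rwa [Real.log_sqrt (by linarith)] at e1
      have hle : X ≤ ⌊(1 + η) * (X : ℝ)⌋₊ := by
        apply Nat.le_floor
        have : (0 : ℝ) ≤ X := by positivity
        nlinarith
      have h2 := NR_add R hle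
      have h3 := hX0 X hXX0
      have h2' : (NR R ⌊(1 + η) * (X : ℝ)⌋₊ : ℝ) ≤
          NR R X + (((Finset.Ioc X ⌊(1 + η) * (X : ℝ)⌋₊).filter R).card : ℝ) := by
        exact_mod_cast h2
      have h4 : ε / 200 * η * X / Real.log X ≤ 2 * (ε / 200) / Real.log Z * η * X := by
        calc ε / 200 * η * X / Real.log X ≤ ε / 200 * η * X / (Real.log Z / 2) := by
              apply div_le_div_of_nonneg_left (by positivity) (by positivity) hlog
          _ = 2 * (ε / 200) / Real.log Z * η * X := by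
              field_simp
      linarith
    have h5 := PFh.iter (NR R) (NR_le R) (NR_mono R) η (2 * (ε / 200) / Real.log Z)
      ((X0 : ℝ) + √(Z : ℝ)) hη hη1 (by positivity) (by positivity) hstep Z
    have h6 : 2 * (2 * (ε / 200) / Real.log Z) * (Z : ℝ) = 4 * (ε / 200) * Z / Real.log Z := by
      ring
    rw [h6] at h5
    linarith
  obtain ⟨Y0, hY0⟩ := PFh.primes_ge hNB
  obtain ⟨Y1, hY1⟩ := PFh.sqrt_small C (ε / 20) (by positivity)
  refine ⟨max (max Y0 Y1) 4, fun Y hY => ?_⟩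
  have hYa : Y0 ≤ Y := le_trans (le_max_left _ _) (le_trans (le_max_left _ _) hY)
  have hYb : Y1 ≤ Y := le_trans (le_max_right _ _) (le_trans (le_max_left _ _) hY)
  have hYc : 4 ≤ Y := le_trans (le_max_right _ _) hY
  have hYr : (4 : ℝ) ≤ Y := by exact_mod_cast hYc
  have hl : 0 < Real.log Y := Real.log_pos (by linarith)
  have hp := hY0 Y hYa
  have hpos : 0 < (9 / 40 : ℝ) * Y / Real.log Y := by positivity
  have hπ : 0 < (((Finset.Icc 2 Y).filter Nat.Prime).card : ℝ) := lt_of_lt_of_le hpos hp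
  rw [Real.dist_eq, sub_zero, abs_of_nonneg (by positivity), div_lt_iff₀ hπ]
  have hcn : ((Finset.Icc 2 Y).filter (fun p => p.Prime ∧ Exc p)).card ≤ NR R (4 * Y) := by
    unfold NR
    refine Finset.card_le_card_of_injOn Dof ?_ ?_
    · intro d hd
      rw [Finset.mem_coe, Finset.mem_filter, Finset.mem_Icc] at hd
      rw [Finset.mem_coe, Finset.mem_filter, Finset.mem_Ioc]
      have h1 : 1 < d := by omega
      refine ⟨⟨?_, ?_⟩, d, hd.2.1, hd.2.2, rfl⟩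
      · have := (isFund_Dof h1 hd.2.1.squarefree).1
        omega
      · refine (Dof_le d).trans ?_
        omega
    · intro d _ d' _ h
      exact Dof_inj h
  have hc : (((Finset.Icc 2 Y).filter (fun p => p.Prime ∧ Exc p)).card : ℝ) ≤
      NR R (4 * Y) := by exact_mod_cast hcn
  have hb := hC (4 * Y) (by omega)
  have h4 : √(((4 * Y : ℕ) : ℝ)) = 2 * √(Y : ℝ) := by
    push_cast
    rw [Real.sqrt_mul (by norm_num)]
    congr 1
    rw [show (4 : ℝ) = 2 ^ 2 by norm_num]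
    exact Real.sqrt_sq (by norm_num)
  have h5 : 4 * (ε / 200) * ((4 * Y : ℕ) : ℝ) / Real.log ((4 * Y : ℕ) : ℝ) ≤
      4 * (ε / 200) * (4 * Y) / Real.log Y := by
    push_cast
    apply div_le_div_of_nonneg_left (by positivity) hl
    apply Real.log_le_log (by linarith)
    linarith
  have h6 := hY1 Y hYb
  have h7 : 4 * (ε / 200) * (4 * (Y : ℝ)) / Real.log Y = (2 / 25) * (ε * Y / Real.log Y) := by
    ring
  have h8 : ε / 20 * (Y : ℝ) / Real.log Y = (1 / 20) * (ε * Y / Real.log Y) := by ring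
  have h9 : 0 < ε * Y / Real.log Y := by positivity
  have h10 : (9 / 40 : ℝ) * (ε * Y / Real.log Y) ≤
      ε * (((Finset.Icc 2 Y).filter Nat.Prime).card : ℝ) := by
    calc (9 / 40 : ℝ) * (ε * Y / Real.log Y) = ε * ((9 / 40 : ℝ) * Y / Real.log Y) := by ring
      _ ≤ _ := mul_le_mul_of_nonneg_left hp hε.le
  rw [h4] at hb
  rw [h7] at h5
  rw [h8] at h6
  linarith

/-- exceptional d have exceptional discriminants -/
theorem exc_bd (hN0 : P_N0) (hN0d : P_N0d) (hN1 : P_N1) (hN3 : P_N3) (h4 : P_N4) (hKF : P_KF)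
    (h5b : P_N5b) (hN6 : P_N6) (a : ℝ) (ha : 2 < a) (ε : ℝ) :
    ∃ X1 : ℕ, ∀ X : ℕ, X1 ≤ X → ∀ d : ℕ, 1 < d → Squarefree d → ¬ GoodE a ε d → X < Dof d →
      Dof d ≤ 2 * X → IsFund (Dof d) ∧ Bd a (min ε (1 / 4)) X (Dof d) := by
  obtain ⟨X1, hX1⟩ := params a ha
  refine ⟨X1, fun X hX d hd1 hds hg hXD hDX => ?_⟩
  have hfund := isFund_Dof hd1 hds
  refine ⟨hfund, ?_⟩
  have hd4 : (X : ℝ) / 4 ≤ d := by
    have h1 : X < 4 * d := lt_of_lt_of_le hXD (Dof_le d)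
    have h2 : (X : ℝ) < 4 * d := by exact_mod_cast h1
    linarith
  have hd2 : (d : ℝ) ≤ 2 * X := by
    have h1 : d ≤ 2 * X := (le_Dof d).trans hDX
    exact_mod_cast h1
  obtain ⟨hy, hk, hy2⟩ := hX1 X hX d hd4 hd2
  unfold GoodE at hg
  push Not at hg
  obtain ⟨K, iF, iN, hrank, hx, hng⟩ := hg
  have hdisc : NumberField.discr K = ((Dof d : ℕ) : ℤ) := by
    rw [hN0d K d hd1 hds hrank hx]
    unfold Dof
    split_ifs <;> simp
  refine bd_of_not_equi hN0 hN1 hN3 h4 hKF h5b hN6 a _ X (Dof d) hy2 hfund K hrank hdisc ?_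
  intro heq
  refine hng ?_ (gen_of_equi K (yA a X) (kA a X) _ (min_le_right _ _) heq _ _ hy hk)
  refine ⟨yA a X, kA a X, hy, hk, heq.1, heq.2.trans ?_⟩
  exact mul_le_mul_of_nonneg_right (min_le_left _ _) (by positivity)

/-- the theorem for all squarefree integers -/
theorem finalE (hN0 : P_N0) (hN0d : P_N0d) (hN1 : P_N1) (hN3 : P_N3) (h4 : P_N4) (hKF : P_KF)
    (h5b : P_N5b) (hN6 : P_N6) (ht : P2_TRIV) (hAS : P3_AS0) : FinalE := by
  intro a ε ha hε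
  suffices hs : ∀ δ : ℝ, 0 < δ → ∃ η : ℝ, 0 < η ∧ η ≤ 1 ∧ ∃ X0 : ℕ, ∀ X ≥ X0,
      (((Finset.Ioc X ⌊(1 + η) * (X : ℝ)⌋₊).filter
        (fun D => ∃ d : ℕ, 1 < d ∧ Squarefree d ∧ ¬ GoodE a ε d ∧ D = Dof d)).card : ℝ) ≤
        δ * η * X by
    have key := fin_all (fun d => ¬ GoodE a ε d) hs
    convert key
  intro δ hδ
  have ht0 : 0 < min ε (1 / 4) := lt_min hε (by norm_num)
  obtain ⟨η, hη, hη1, X0, hX0⟩ := short_all ht hAS a ha _ ht0 δ hδ
  obtain ⟨X1, hX1⟩ := exc_bd hN0 hN0d hN1 hN3 h4 hKF h5b hN6 a ha ε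
  refine ⟨η, hη, hη1, max X0 X1, fun X hX => ?_⟩
  refine le_trans ?_ (hX0 X (le_trans (le_max_left _ _) hX))
  have hsub : ((Finset.Ioc X ⌊(1 + η) * (X : ℝ)⌋₊).filter
        (fun D => ∃ d : ℕ, 1 < d ∧ Squarefree d ∧ ¬ GoodE a ε d ∧ D = Dof d)) ⊆
      (Finset.Ioc X ⌊(1 + η) * (X : ℝ)⌋₊).filter
        (fun D => IsFund D ∧ Bd a (min ε (1 / 4)) X D) := by
    intro D hD
    rw [Finset.mem_filter] at hD ⊢
    obtain ⟨hD1, d, hd1, hds, hg, rfl⟩ := hD
    refine ⟨hD1, ?_⟩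
    refine hX1 X (le_trans (le_max_right _ _) hX) d hd1 hds hg (Finset.mem_Ioc.1 hD1).1 ?_
    have h1 := (Finset.mem_Ioc.1 hD1).2
    have h2 : ((⌊(1 + η) * (X : ℝ)⌋₊ : ℕ) : ℝ) ≤ (1 + η) * (X : ℝ) :=
      Nat.floor_le (by positivity)
    have h3 : (Dof d : ℝ) ≤ (⌊(1 + η) * (X : ℝ)⌋₊ : ℝ) := by exact_mod_cast h1
    have h5 : (Dof d : ℝ) ≤ 2 * (X : ℝ) := by
      have : (0 : ℝ) ≤ X := by positivity
      nlinarith
    exact_mod_cast h5
  exact_mod_cast Finset.card_le_card hsub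

/-- the theorem for primes -/
theorem finalEP (hN0 : P_N0) (hN0d : P_N0d) (hN1 : P_N1) (hN3 : P_N3) (h4 : P_N4) (hKF : P_KF)
    (h5b : P_N5b) (hN6 : P_N6) (hNB : P_NB) (hBH : P2_BH) (hRC : P2_RC) (hAS : P3_AS0) :
    FinalEP := by
  intro a ε ha hε
  suffices hs : ∀ δ : ℝ, 0 < δ → ∃ η : ℝ, 0 < η ∧ η ≤ 1 ∧ ∃ X0 : ℕ, ∀ X ≥ X0,
      (((Finset.Ioc X ⌊(1 + η) * (X : ℝ)⌋₊).filter
        (fun D => ∃ p : ℕ, p.Prime ∧ ¬ GoodE a ε p ∧ D = Dof p)).card : ℝ) ≤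
        δ * η * X / Real.log X by
    have key := fin_primes hNB (fun d => ¬ GoodE a ε d) hs
    convert key
  intro δ hδ
  have ht0 : 0 < min ε (1 / 4) := lt_min hε (by norm_num)
  obtain ⟨η, hη, hη1, X0, hX0⟩ := short_primes hAS hBH hRC a ha _ ht0 δ hδ
  obtain ⟨X1, hX1⟩ := exc_bd hN0 hN0d hN1 hN3 h4 hKF h5b hN6 a ha ε
  refine ⟨η, hη, hη1, max X0 X1, fun X hX => ?_⟩
  refine le_trans ?_ (hX0 X (le_trans (le_max_left _ _) hX))
  have hsub : ((Finset.Ioc X ⌊(1 + η) * (X : ℝ)⌋₊).filter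
        (fun D => ∃ p : ℕ, p.Prime ∧ ¬ GoodE a ε p ∧ D = Dof p)) ⊆
      (Finset.Ioc X ⌊(1 + η) * (X : ℝ)⌋₊).filter
        (fun D => (∃ p : ℕ, p.Prime ∧ (D = p ∨ D = 4 * p)) ∧
          IsFund D ∧ Bd a (min ε (1 / 4)) X D) := by
    intro D hD
    rw [Finset.mem_filter] at hD ⊢
    obtain ⟨hD1, p, hp, hg, rfl⟩ := hD
    refine ⟨hD1, ⟨p, hp, ?_⟩, ?_⟩
    · unfold Dof
      split_ifs <;> simp
    refine hX1 X (le_trans (le_max_right _ _) hX) p hp.one_lt hp.squarefree hg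
      (Finset.mem_Ioc.1 hD1).1 ?_
    have h1 := (Finset.mem_Ioc.1 hD1).2
    have h2 : ((⌊(1 + η) * (X : ℝ)⌋₊ : ℕ) : ℝ) ≤ (1 + η) * (X : ℝ) :=
      Nat.floor_le (by positivity)
    have h3 : (Dof p : ℝ) ≤ (⌊(1 + η) * (X : ℝ)⌋₊ : ℝ) := by exact_mod_cast h1
    have h5 : (Dof p : ℝ) ≤ 2 * (X : ℝ) := by
      have : (0 : ℝ) ≤ X := by positivity
      nlinarith
    exact_mod_cast h5
  exact_mod_cast Finset.card_le_card hsub

end Pool.Agent.H38R2.CG3
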